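import Pool.Agent.Helper15.T8.Stmts

set_option autoImplicit false

/-!
MP_2f9829_co, part T8: an isolated vertex is added (module EMB).
-/

open Finset Filter Topology

namespace Pool.Agent.Helper53.T8

open Pool.Agent.Helper15.T8

/-- the embedding of edge sets -/
def em {n : ℕ} (E : Finset (Sym2 (Fin n))) : Finset (Sym2 (Fin (n + 1))) :=
  E.image (Sym2.map Fin.castSucc)

theorem map_inj (n : ℕ) : Function.Injective (Sym2.map (Fin.castSucc : Fin n → Fin (n + 1))) :=
  Sym2.map.injective (Fin.castSucc_injective n)

theorem em_inj (n : ℕ) : Function.Injective (em : Finset (Sym2 (Fin n)) → _) :=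
  Finset.image_injective (map_inj n)

theorem mem_map_cast {n : ℕ} (v : Fin n) (e : Sym2 (Fin n)) :
    Fin.castSucc v ∈ Sym2.map Fin.castSucc e ↔ v ∈ e := by
  rw [Sym2.mem_map]
  constructor
  · rintro ⟨a, ha, hav⟩
    rwa [← Fin.castSucc_injective n hav]
  · intro h
    exact ⟨v, h, rfl⟩

theorem last_notMem {n : ℕ} (e : Sym2 (Fin n)) : Fin.last n ∉ Sym2.map Fin.castSucc e := by
  rw [Sym2.mem_map]
  rintro ⟨a, -, ha⟩
  exact Fin.castSucc_ne_last a ha

theorem dg_em {n : ℕ} (E : Finset (Sym2 (Fin n))) (v : Fin n) : dg (em E) (Fin.castSucc v) = dg E v := by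
  unfold dg em
  rw [Finset.filter_image, Finset.card_image_of_injective _ (map_inj n)]
  congr 1
  exact Finset.filter_congr fun e _ => mem_map_cast v e

theorem dg_em_last {n : ℕ} (E : Finset (Sym2 (Fin n))) : dg (em E) (Fin.last n) = 0 := by
  unfold dg em
  rw [Finset.card_eq_zero, Finset.filter_eq_empty_iff]
  intro e he
  obtain ⟨e', -, rfl⟩ := Finset.mem_image.mp he
  exact last_notMem e'

theorem diag_em {n : ℕ} (e : Sym2 (Fin n)) : (Sym2.map (Fin.castSucc : Fin n → Fin (n + 1)) e).IsDiag ↔ e.IsDiag := by
  induction e using Sym2.ind with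
  | _ x y =>
    rw [Sym2.map_mk]
    simp

theorem GW_em (n D : ℕ) : (GW n D ∅).image em = GW (n + 1) D {Fin.last n} := by
  ext E'
  unfold GW
  simp only [Finset.mem_image, Finset.mem_filter, Finset.mem_univ, true_and, Finset.mem_singleton,
    Finset.notMem_empty, false_implies, implies_true, and_true, forall_eq]
  constructor
  · rintro ⟨E, ⟨h1, h2⟩, rfl⟩
    refine ⟨?_, ?_, dg_em_last E⟩
    · intro e he
      obtain ⟨e', he', rfl⟩ := Finset.mem_image.mp he
      rw [diag_em]
      exact h1 e' he'
    · intro v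
      refine Fin.lastCases ?_ (fun v => ?_) v
      · rw [dg_em_last]; exact Nat.zero_le _
      · rw [dg_em]; exact h2 v
  · rintro ⟨h1, h2, h3⟩
    refine ⟨E'.preimage (Sym2.map Fin.castSucc) (map_inj n).injOn, ?_, ?_⟩
    all_goals
      have him : em (E'.preimage (Sym2.map Fin.castSucc) (map_inj n).injOn) = E' := by
        unfold em
        rw [Finset.image_preimage]
        refine Finset.filter_true_of_mem fun e he => ?_
        have hl : Fin.last n ∉ e := by
          intro hl
          have : e ∈ E'.filter (fun e => Fin.last n ∈ e) := Finset.mem_filter.mpr ⟨he, hl⟩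
          unfold dg at h3
          rw [Finset.card_eq_zero] at h3
          rw [h3] at this
          exact absurd this (Finset.notMem_empty _)
        revert hl he
        induction e using Sym2.ind with
        | _ x y =>
          intro he hl
          rw [Sym2.mem_iff] at hl
          push Not at hl
          obtain ⟨x', hx⟩ := Fin.exists_castSucc_eq.mpr (Ne.symm hl.1)
          obtain ⟨y', hy⟩ := Fin.exists_castSucc_eq.mpr (Ne.symm hl.2)
          exact ⟨s(x', y'), by rw [Sym2.map_mk, hx, hy]⟩
    · constructor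
      · intro e he
        rw [← diag_em]
        exact h1 _ (Finset.mem_preimage.mp he)
      · intro v
        rw [← dg_em, him]
        exact h2 _
    · exact him

theorem st_EMB : ST_EMB := by
  intro n D B B' _ _ hB
  rw [← GW_em]
  refine ⟨(Finset.card_image_of_injective _ (em_inj n)).symm, ?_⟩
  rw [← Finset.card_image_of_injective _ (em_inj n)]
  refine Finset.card_le_card ?_
  intro E' hE'
  obtain ⟨E, hE, rfl⟩ := Finset.mem_image.mp hE'
  obtain ⟨hE1, hE2⟩ := Finset.mem_filter.mp hE
  exact Finset.mem_filter.mpr ⟨Finset.mem_image_of_mem _ hE1, hB E hE2⟩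

end Pool.Agent.Helper53.T8
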